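import Pool.Agent.K1H34.HYC.Stm

/-!
# Project HYC (MP_b8729f_co): the completion lemma
-/

set_option autoImplicit false
open Classical Finset

namespace Pool.Agent.K1H34.HYC

/-- asymptotics -/
theorem gcl_asy (k a : ℝ) (hk : 0 ≤ k) (ha : 0 < a) : ∃ D0 : ℕ, ∀ D : ℕ, D0 ≤ D →
    k * (Real.sqrt D * (Real.log D) ^ 2) + k ≤ a * D := by
  have hε : 0 < a / (8 * (k + 1)) := by positivity
  have h1 : ∀ᶠ y : ℝ in Filter.atTop, ‖Real.log y ^ 2‖ ≤ a / (8 * (k + 1)) * ‖y‖ := by
    have := (Real.isLittleO_pow_log_id_atTop (n := 2)).def hε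
    simpa using this
  have h2 : Filter.Tendsto (fun D : ℕ => Real.sqrt D) Filter.atTop Filter.atTop :=
    Real.tendsto_sqrt_atTop.comp tendsto_natCast_atTop_atTop
  have h3 := h2.eventually h1
  have h4 : ∀ᶠ D : ℕ in Filter.atTop, 2 * k / a ≤ (D : ℝ) :=
    tendsto_natCast_atTop_atTop.eventually_ge_atTop _
  obtain ⟨D0, hD0⟩ := Filter.eventually_atTop.1 (h3.and h4)
  refine ⟨D0, fun D hD => ?_⟩
  obtain ⟨e1, e2⟩ := hD0 D hD
  have hs : 0 ≤ Real.sqrt D := Real.sqrt_nonneg _
  rw [Real.norm_of_nonneg (sq_nonneg _), Real.norm_of_nonneg hs,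
    Real.log_sqrt (Nat.cast_nonneg D)] at e1
  have e3 : (Real.log D) ^ 2 ≤ 4 * (a / (8 * (k + 1))) * Real.sqrt D := by nlinarith
  have e4 : Real.sqrt D * (Real.log D) ^ 2 ≤ 4 * (a / (8 * (k + 1))) * D := by
    calc Real.sqrt D * (Real.log D) ^ 2 ≤ Real.sqrt D * (4 * (a / (8 * (k + 1))) * Real.sqrt D) :=
          mul_le_mul_of_nonneg_left e3 hs
      _ = 4 * (a / (8 * (k + 1))) * (Real.sqrt D * Real.sqrt D) := by ring
      _ = _ := by rw [Real.mul_self_sqrt (Nat.cast_nonneg D)]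
  have e5 : k * (Real.sqrt D * (Real.log D) ^ 2) ≤ a * D / 2 := by
    calc k * (Real.sqrt D * (Real.log D) ^ 2) ≤ k * (4 * (a / (8 * (k + 1))) * D) :=
          mul_le_mul_of_nonneg_left e4 hk
      _ = (k / (k + 1)) * (a * D / 2) := by field_simp; ring
      _ ≤ 1 * (a * D / 2) := by
          apply mul_le_mul_of_nonneg_right _ (by positivity)
          rw [div_le_one (by linarith)]; linarith
      _ = _ := one_mul _
  have e6 : k ≤ a * D / 2 := by
    rw [div_le_iff₀ ha] at e2; linarith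
  linarith

/-- sums over an interval of cells -/
theorem gcl_cells {X : Type} [Fintype X] (K : ℕ) (c : X → Fin K) (w : X → ℝ)
    (hw : ∀ x, 0 ≤ w x) (e : ℝ)
    (h : ∀ t, ∑ x ∈ univ.filter (fun x => c x = t), w x ≤ e) (i j : ℕ) (hij : i ≤ j)
    (hj : j ≤ K) :
    ∑ x ∈ univ.filter (fun x => i ≤ (c x : ℕ) ∧ (c x : ℕ) < j), w x ≤ ((j : ℝ) - i) * e := by
  have hm : ∀ x ∈ univ.filter (fun x => i ≤ (c x : ℕ) ∧ (c x : ℕ) < j),
      (c x : ℕ) ∈ Finset.Ico i j := by
    intro x hx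
    simpa using hx
  rw [← Finset.sum_fiberwise_of_maps_to hm]
  have : ((j : ℝ) - i) * e = ∑ _n ∈ Finset.Ico i j, e := by
    rw [Finset.sum_const, Nat.card_Ico, nsmul_eq_mul, Nat.cast_sub hij]
  rw [this]
  refine Finset.sum_le_sum fun n hn => ?_
  have hn' := Finset.mem_Ico.1 hn
  refine le_trans ?_ (h ⟨n, by omega⟩)
  refine Finset.sum_le_sum_of_subset_of_nonneg ?_ (fun x _ _ => hw x)
  intro x hx
  simp only [Finset.mem_filter, Finset.mem_univ, true_and] at hx ⊢
  exact Fin.ext hx.2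

/-- the parts -/
theorem gcl_part (M : ℕ) (b : ℕ → ℕ) (h0 : b 0 = 0) (t : ℕ) (ht : t < b M) :
    ∃ m < M, b m ≤ t ∧ t < b (m + 1) := by
  have hex : ∃ m, t < b m := ⟨M, ht⟩
  have h1 := Nat.find_spec hex
  have h2 : Nat.find hex ≤ M := Nat.find_min' hex ht
  have h3 : Nat.find hex ≠ 0 := by
    intro h
    rw [h, h0] at h1
    omega
  obtain ⟨m, hm⟩ := Nat.exists_eq_succ_of_ne_zero h3
  refine ⟨m, by omega, ?_, ?_⟩
  · by_contra hcon
    push Not at hcon
    exact Nat.find_min hex (by omega : m < Nat.find hex) hcon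
  · rw [hm] at h1; exact h1

theorem gcl_mono (M : ℕ) (b : ℕ → ℕ) (h : ∀ m < M, b m < b (m + 1)) (i j : ℕ) (hij : i ≤ j)
    (hj : j ≤ M) : b i ≤ b j := by
  induction j, hij using Nat.le_induction with
  | base => exact le_refl _
  | succ n hn ih => exact le_trans (ih (by omega)) (h n (by omega)).le

theorem gcl_row {X : Type} (P : Finset (X × ℕ)) (A : Finset X) :
    ∑ y ∈ A, row P y = (P.filter (fun z => z.1 ∈ A)).card := by
  rw [Finset.card_eq_sum_card_fiberwise (f := fun z : X × ℕ => z.1) (t := A)]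
  · refine Finset.sum_congr rfl fun y hy => ?_
    rw [row, Finset.filter_filter]
    congr 1
    ext z
    simp only [Finset.mem_filter]
    constructor
    · rintro ⟨h1, h2⟩; exact ⟨h1, by rw [h2]; exact hy, h2⟩
    · rintro ⟨h1, h2, h3⟩; exact ⟨h1, h3⟩
  · intro z hz
    exact (Finset.mem_filter.1 (Finset.mem_coe.1 hz)).2

theorem t_GCL : S_SEQ → S_PART → S_BRK → S_GCL := by
  intro hSEQ hPART hBRK l g
  obtain ⟨K, M, b, hK, hM, hMle, hb0, hbM, hblt, hlen, hlast⟩ := hBRK l g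
  obtain ⟨D1, hD1⟩ := hPART K hK
  obtain ⟨D2, hD2⟩ := gcl_asy (33 * K) (1 / (4 * 2 ^ g)) (by positivity) (by positivity)
  refine ⟨max (max D1 D2) 3, ?_⟩
  intro D hD X O _ _ Γ L P r h1 h2 h3 h4 h5 h6 h7 h8 h9
  have hDD1 : D1 ≤ D := le_trans (le_trans (le_max_left _ _) (le_max_left _ _)) hD
  have hDD2 : D2 ≤ D := le_trans (le_trans (le_max_right _ _) (le_max_left _ _)) hD
  have hD3 : 3 ≤ D := le_trans (le_max_right _ _) hD
  have hD3' : (3 : ℝ) ≤ D := by exact_mod_cast hD3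
  have hasy := hD2 D hDD2
  have hlog1 : 1 ≤ Real.log D := by
    rw [Real.le_log_iff_exp_le (by linarith)]
    have := Real.exp_one_lt_d9
    linarith
  have hlog2 : 1 ≤ (Real.log D) ^ 2 := by nlinarith
  -- the parts
  have hKR : (0 : ℝ) < K := by exact_mod_cast hK
  have hmono := gcl_mono M b hblt
  -- the weights
  let w : X ⊕ O → X → ℝ := fun j y =>
    Sum.elim (fun x => if Γ.Adj x y then (1 : ℝ) else 0) (fun o => (row (P o) y : ℝ)) j
  have hw0 : ∀ j y, 0 ≤ w j y := by
    rintro (x | o) y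
    · simp only [w, Sum.elim_inl]; split_ifs <;> norm_num
    · simp only [w, Sum.elim_inr]; positivity
  have hwB : ∀ j y, 0 ≤ w j y ∧ w j y ≤ (Real.log D) ^ 2 := by
    intro j y
    refine ⟨hw0 j y, ?_⟩
    rcases j with x | o
    · simp only [w, Sum.elim_inl]; split_ifs <;> linarith
    · simp only [w, Sum.elim_inr]; exact h7 o y
  have hwinl : ∀ (x : X) (A : Finset X), ∑ y ∈ A, w (Sum.inl x) y =
      ((A.filter (fun y => Γ.Adj x y)).card : ℝ) := by
    intro x A
    simp only [w, Sum.elim_inl]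
    rw [Finset.sum_boole]
  have hwinr : ∀ (o : O) (A : Finset X), ∑ y ∈ A, w (Sum.inr o) y =
      (((P o).filter (fun z => z.1 ∈ A)).card : ℝ) := by
    intro o A
    simp only [w, Sum.elim_inr]
    rw [← gcl_row (P o) A]
    push_cast
    rfl
  have hDpow : D ≤ D ^ 4 := Nat.le_self_pow (by norm_num) D
  have hsup1 : ∀ j, (univ.filter (fun y => w j y ≠ 0)).card ≤ D ^ 4 := by
    rintro (x | o)
    · refine le_trans (le_trans (Finset.card_le_card ?_) (h1 x)) hDpow
      intro y hy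
      simp only [Finset.mem_filter, Finset.mem_univ, true_and, w, Sum.elim_inl] at hy ⊢
      by_contra hcon
      simp [hcon] at hy
    · have e0 : univ.filter (fun y => w (Sum.inr o) y ≠ 0) ⊆ (P o).image (fun z => z.1) := by
        intro y hy
        have hy' := (Finset.mem_filter.1 hy).2
        have : row (P o) y ≠ 0 := fun h0 => hy' (by simp [w, h0])
        rw [row] at this
        obtain ⟨z, hz⟩ := Finset.card_ne_zero.1 this
        rw [Finset.mem_filter] at hz
        exact Finset.mem_image.2 ⟨z, hz.1, hz.2⟩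
      exact le_trans (le_trans (Finset.card_le_card e0) Finset.card_image_le) (h6 o)
  have hsup2 : ∀ y, (univ.filter (fun j => w j y ≠ 0)).card ≤ D ^ 4 := by
    intro y
    have e1 : univ.filter (fun j => w j y ≠ 0) ⊆
        (univ.filter (fun x => Γ.Adj y x)).image Sum.inl ∪
          (univ.filter (fun o => row (P o) y ≠ 0)).image Sum.inr := by
      rintro (x | o) hj
      · simp only [Finset.mem_filter, Finset.mem_univ, true_and, w, Sum.elim_inl] at hj
        refine Finset.mem_union_left _ (Finset.mem_image.2 ⟨x, ?_, rfl⟩)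
        simp only [Finset.mem_filter, Finset.mem_univ, true_and]
        by_contra hcon
        have : ¬ Γ.Adj x y := fun hh => hcon hh.symm
        simp [this] at hj
      · simp only [Finset.mem_filter, Finset.mem_univ, true_and, w, Sum.elim_inr] at hj
        refine Finset.mem_union_right _ (Finset.mem_image.2 ⟨o, ?_, rfl⟩)
        simp only [Finset.mem_filter, Finset.mem_univ, true_and]
        exact_mod_cast hj
    calc (univ.filter (fun j => w j y ≠ 0)).card ≤ _ := Finset.card_le_card e1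
      _ ≤ _ := Finset.card_union_le _ _
      _ ≤ D + D ^ 3 := add_le_add (Finset.card_image_le.trans (h1 y))
          (Finset.card_image_le.trans (h8 y))
      _ ≤ D ^ 3 + D ^ 3 := by
          have : D ≤ D ^ 3 := Nat.le_self_pow (by norm_num) D
          omega
      _ = 2 * D ^ 3 := by ring
      _ ≤ D * D ^ 3 := Nat.mul_le_mul_right _ (by omega)
      _ = D ^ 4 := by ring
  obtain ⟨c, hc⟩ := hD1 D hDD1 X (X ⊕ O) w ((Real.log D) ^ 2) (by linarith) hwB hsup1 hsup2
  -- the error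
  obtain ⟨E, hE⟩ : ∃ E : ℝ, E = K * (Real.sqrt D * (Real.log D) ^ 2) := ⟨_, rfl⟩
  have hE0 : 0 ≤ E := by rw [hE]; positivity
  obtain ⟨γ, hγ⟩ : ∃ γ : ℝ, γ = 1 / 2 ^ g := ⟨_, rfl⟩
  have hγ0 : 0 < γ := by rw [hγ]; positivity
  have hK1 : (1 : ℝ) ≤ K := by exact_mod_cast hK
  have hmain : 33 * E + 33 ≤ γ * D / 4 := by
    have e1 : 1 / (4 * 2 ^ g) * (D : ℝ) = γ * D / 4 := by rw [hγ]; field_simp
    rw [e1] at hasy
    rw [hE]
    linarith
  have hcell : ∀ (j : X ⊕ O) (i i' : ℕ) (q : ℝ), i ≤ i' → i' ≤ K → 0 ≤ q →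
      ∑ y, w j y ≤ D * q ^ 2 →
      ∑ y ∈ univ.filter (fun y => i ≤ (c y : ℕ) ∧ (c y : ℕ) < i'), w j y ≤
        ((i' : ℝ) - i) / K * ∑ y, w j y + q * E := by
    intro j i i' q hii hi' hq hW
    have e1 := gcl_cells K c (w j) (hw0 j) _ (hc j) i i' hii hi'
    refine le_trans e1 ?_
    have e2 : Real.sqrt ((Real.log D) ^ 2 * ∑ y, w j y) ≤ Real.log D * q * Real.sqrt D := by
      have e3 : Real.log D * q * Real.sqrt D = Real.sqrt ((Real.log D * q) ^ 2 * D) := by
        rw [Real.sqrt_mul (sq_nonneg _), Real.sqrt_sq (by positivity)]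
      rw [e3]
      apply Real.sqrt_le_sqrt
      calc (Real.log D) ^ 2 * ∑ y, w j y ≤ (Real.log D) ^ 2 * (D * q ^ 2) :=
            mul_le_mul_of_nonneg_left hW (sq_nonneg _)
        _ = _ := by ring
    have e4 : ((i' : ℝ) - i) * (Real.sqrt ((Real.log D) ^ 2 * ∑ y, w j y) * Real.log D) ≤
        q * E := by
      have e5 : (0 : ℝ) ≤ (i' : ℝ) - i := by
        have : (i : ℝ) ≤ i' := by exact_mod_cast hii
        linarith
      have e6 : ((i' : ℝ) - i) ≤ K := by
        have h1 : (i' : ℝ) ≤ K := by exact_mod_cast hi'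
        have h2 : (0 : ℝ) ≤ i := Nat.cast_nonneg _
        linarith
      calc ((i' : ℝ) - i) * (Real.sqrt ((Real.log D) ^ 2 * ∑ y, w j y) * Real.log D)
          ≤ K * ((Real.log D * q * Real.sqrt D) * Real.log D) := by
            apply mul_le_mul e6 _ (by positivity) hKR.le
            exact mul_le_mul_of_nonneg_right e2 (by linarith)
        _ = q * E := by rw [hE]; ring
    calc ((i' : ℝ) - i) * ((∑ y, w j y) / K +
          Real.sqrt ((Real.log D) ^ 2 * ∑ y, w j y) * Real.log D)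
        = ((i' : ℝ) - i) / K * ∑ y, w j y +
          ((i' : ℝ) - i) * (Real.sqrt ((Real.log D) ^ 2 * ∑ y, w j y) * Real.log D) := by ring
      _ ≤ _ := by linarith
  -- the parts
  choose π hπM hπ1 hπ2 using
    fun x => gcl_part M b hb0 (c x : ℕ) (by rw [hbM]; exact (c x).2)
  have hbK : ∀ m ≤ M, b m ≤ K := fun m hm => by
    rw [← hbM]; exact hmono m M hm (le_refl _)
  obtain ⟨mx, hmx⟩ : ∃ mx : ℕ → ℝ, ∀ m, mx m = max (((K : ℝ) - b m) / K * (1 / 2 ^ l)) γ :=
    ⟨_, fun _ => rfl⟩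
  have hmxγ : ∀ m, γ ≤ mx m := fun m => by rw [hmx]; exact le_max_right _ _
  have hmx0 : ∀ m, 0 < mx m := fun m => lt_of_lt_of_le hγ0 (hmxγ m)
  have hDR : (0 : ℝ) < D := by linarith
  have hmxD : ∀ m, γ * D ≤ mx m * D := fun m => mul_le_mul_of_nonneg_right (hmxγ m) hDR.le
  have hlenmx : ∀ m < M, ((b (m + 1) : ℝ) - b m) / K ≤ mx m / 128 := by
    intro m hm
    have c1 : b m ≤ b (m + 1) := (hblt m hm).le
    have c2 : b m ≤ K := hbK m hm.le
    rcases Nat.lt_or_ge (m + 1) M with hm1 | hm1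
    · have e1 := hlen m hm1
      have e2 : ((b (m + 1) : ℝ) - b m) * 2 ^ (l + 7) ≤ (K : ℝ) - b m := by
        rw [← Nat.cast_sub c1, ← Nat.cast_sub c2]
        exact_mod_cast e1
      calc ((b (m + 1) : ℝ) - b m) / K ≤ (((K : ℝ) - b m) / 2 ^ (l + 7)) / K := by
            apply div_le_div_of_nonneg_right _ hKR.le
            rw [le_div_iff₀ (by positivity)]; exact e2
        _ = (((K : ℝ) - b m) / K * (1 / 2 ^ l)) / 128 := by
            rw [pow_add]; field_simp; norm_num
        _ ≤ mx m / 128 := by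
            apply div_le_div_of_nonneg_right _ (by norm_num)
            rw [hmx]; exact le_max_left _ _
    · have hmM : m = M - 1 := by omega
      have hmM' : m + 1 = M := by omega
      have e1 := hlast
      rw [← hmM] at e1
      have e2 : ((b (m + 1) : ℝ) - b m) * 2 ^ (g + 7) ≤ (K : ℝ) := by
        rw [hmM', hbM, ← Nat.cast_sub c2]
        exact_mod_cast e1
      calc ((b (m + 1) : ℝ) - b m) / K ≤ ((K : ℝ) / 2 ^ (g + 7)) / K := by
            apply div_le_div_of_nonneg_right _ hKR.le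
            rw [le_div_iff₀ (by positivity)]; exact e2
        _ = γ / 128 := by
            rw [hγ, pow_add]; field_simp; norm_num
        _ ≤ mx m / 128 := by
            apply div_le_div_of_nonneg_right _ (by norm_num)
            exact hmxγ m
  let s : ℕ → ℕ := fun m => ⌊mx m * D / 2⌋₊
  let d : ℕ → ℕ := fun m => ⌈((b (m + 1) : ℝ) - b m) / K * D + E⌉₊
  have hs1 : ∀ m, (s m : ℝ) ≤ mx m * D / 2 := fun m =>
    Nat.floor_le (by have := hmx0 m; positivity)
  have hs2 : ∀ m, mx m * D / 2 - 1 ≤ s m := fun m => by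
    have := Nat.lt_floor_add_one (mx m * D / 2)
    simp only [s]; linarith
  have hd1 : ∀ m, ((b (m + 1) : ℝ) - b m) / K * D + E ≤ d m := fun m => Nat.le_ceil _
  have hd2 : ∀ m < M, (d m : ℝ) ≤ mx m * D / 128 + E + 1 := fun m hm => by
    have e0 : ((b (m + 1) : ℝ) - b m) / K * D ≤ mx m / 128 * D :=
      mul_le_mul_of_nonneg_right (hlenmx m hm) hDR.le
    have e1 : (0 : ℝ) ≤ ((b (m + 1) : ℝ) - b m) / K * D + E := by
      have : (b m : ℝ) ≤ b (m + 1) := by exact_mod_cast (hblt m hm).le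
      have h2 : (0 : ℝ) ≤ ((b (m + 1) : ℝ) - b m) / K * D := by
        apply mul_nonneg (div_nonneg (by linarith) hKR.le) hDR.le
      linarith
    have := Nat.ceil_lt_add_one e1
    simp only [d]; linarith
  suffices hkey : ∃ f : X → ℕ, (∀ x, f x ∈ L x) ∧ (∀ x y, Γ.Adj x y → f x ≠ f y) ∧
      ∀ o, hits (P o) univ f ≤ M * r o by
    obtain ⟨f, hf1, hf2, hf3⟩ := hkey
    exact ⟨f, hf1, hf2, fun o => le_trans (hf3 o) (Nat.mul_le_mul_right _ hMle)⟩
  refine hSEQ X O Γ L M π s d P r hπM ?_ ?_ ?_ ?_ h4 ?_ ?_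
  · -- 64 ≤ s m
    intro m _
    have e1 := hs2 m
    have e2 := hmxD m
    have : (64 : ℝ) ≤ s m := by linarith
    exact_mod_cast this
  · -- the lists
    intro x
    have hW : ∑ y, w (Sum.inl x) y = (dg Γ univ x : ℝ) := by rw [hwinl]; rfl
    have hdx : (dg Γ univ x : ℝ) ≤ D := by exact_mod_cast h1 x
    have hdx0 : (0 : ℝ) ≤ (dg Γ univ x : ℝ) := Nat.cast_nonneg _
    have e1 := hcell (Sum.inl x) 0 (b (π x)) 1 (Nat.zero_le _) (hbK _ (hπM x).le)
      zero_le_one (by rw [hW]; linarith)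
    rw [hwinl, hW] at e1
    have e2 : ((univ.filter (fun y => Γ.Adj x y ∧ π y < π x)).card : ℝ) ≤
        (((univ.filter (fun y => 0 ≤ (c y : ℕ) ∧ (c y : ℕ) < b (π x))).filter
          (fun y => Γ.Adj x y)).card : ℝ) := by
      refine Nat.cast_le.2 (Finset.card_le_card ?_)
      intro y hy
      have hy1 := (Finset.mem_filter.1 hy).2
      refine Finset.mem_filter.2 ⟨Finset.mem_filter.2 ⟨Finset.mem_univ _, Nat.zero_le _, ?_⟩,
        hy1.1⟩
      exact lt_of_lt_of_le (hπ2 y) (hmono _ _ hy1.2 (hπM x).le)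
    have e3 := le_trans e2 e1
    rw [Nat.cast_zero, sub_zero, one_mul] at e3
    have e4 := hs1 (π x)
    have e5 := hmxD (π x)
    have hρ0 : (0 : ℝ) ≤ ((K : ℝ) - b (π x)) / K := by
      have : (b (π x) : ℝ) ≤ K := by exact_mod_cast hbK _ (hπM x).le
      exact div_nonneg (by linarith) hKR.le
    have hρ1 : ((K : ℝ) - b (π x)) / K ≤ 1 := by
      rw [div_le_one hKR]
      have : (0 : ℝ) ≤ b (π x) := Nat.cast_nonneg _
      linarith
    have hρ2 : ((K : ℝ) - b (π x)) / K = 1 - (b (π x) : ℝ) / K := by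
      field_simp
    have hL := h2 x
    have hγD : (D : ℝ) / 2 ^ g = γ * D := by rw [hγ]; ring
    rw [hγD] at hL
    have hγD0 : 0 ≤ γ * D := by positivity
    have hρd : 0 ≤ ((K : ℝ) - b (π x)) / K * (dg Γ univ x : ℝ) := mul_nonneg hρ0 hdx0
    have e6 : mx (π x) * D ≤ ((L x).card : ℝ) - (dg Γ univ x : ℝ) +
        ((K : ℝ) - b (π x)) / K * (dg Γ univ x : ℝ) := by
      rw [hmx, max_mul_of_nonneg _ _ hDR.le]
      apply max_le
      · have hρl : ((K : ℝ) - b (π x)) / K * (1 / 2 ^ l) * D =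
            ((K : ℝ) - b (π x)) / K * (D / 2 ^ l) := by ring
        rw [hρl]
        rcases h3 x with hh | hh
        · have := mul_le_mul_of_nonneg_left hh hρ0
          linarith
        · have h7 : (0 : ℝ) ≤ (D : ℝ) / 2 ^ l := by positivity
          have := mul_le_mul_of_nonneg_right hρ1 h7
          linarith
      · linarith
    have e7 : ((K : ℝ) - b (π x)) / K * (dg Γ univ x : ℝ) = (dg Γ univ x : ℝ) -
        (b (π x) : ℝ) / K * (dg Γ univ x : ℝ) := by rw [hρ2]; ring
    have : (s (π x) : ℝ) + ((univ.filter (fun y => Γ.Adj x y ∧ π y < π x)).card : ℝ) ≤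
        ((L x).card : ℝ) := by linarith
    exact_mod_cast this
  · intro x
    have hW : ∑ y, w (Sum.inl x) y = (dg Γ univ x : ℝ) := by rw [hwinl]; rfl
    have hdx : (dg Γ univ x : ℝ) ≤ D := by exact_mod_cast h1 x
    have e1 := hcell (Sum.inl x) (b (π x)) (b (π x + 1)) 1 (hblt _ (hπM x)).le
      (hbK _ (hπM x)) zero_le_one (by rw [hW]; linarith)
    rw [hwinl, hW] at e1
    have e2 : ((univ.filter (fun y => Γ.Adj x y ∧ π y = π x)).card : ℝ) ≤
        (((univ.filter (fun y => b (π x) ≤ (c y : ℕ) ∧ (c y : ℕ) < b (π x + 1))).filter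
          (fun y => Γ.Adj x y)).card : ℝ) := by
      refine Nat.cast_le.2 (Finset.card_le_card ?_)
      intro y hy
      have hy1 := (Finset.mem_filter.1 hy).2
      refine Finset.mem_filter.2 ⟨Finset.mem_filter.2 ⟨Finset.mem_univ _, ?_, ?_⟩, hy1.1⟩
      · rw [← hy1.2]; exact hπ1 y
      · rw [← hy1.2]; exact hπ2 y
    have e3 : (0 : ℝ) ≤ ((b (π x + 1) : ℝ) - b (π x)) / K := by
      have : (b (π x) : ℝ) ≤ b (π x + 1) := by exact_mod_cast (hblt _ (hπM x)).le
      exact div_nonneg (by linarith) hKR.le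
    have e4 := mul_le_mul_of_nonneg_left hdx e3
    have e5 := hd1 (π x)
    have : ((univ.filter (fun y => Γ.Adj x y ∧ π y = π x)).card : ℝ) ≤ (d (π x) : ℝ) := by
      linarith
    exact_mod_cast this
  · intro m hm
    have e1 := hs2 m
    have e2 := hmxD m
    have e3 := hd2 m hm
    have : (32 : ℝ) * d m ≤ s m := by linarith
    exact_mod_cast this
  · intro m hm o
    have hW : ∑ y, w (Sum.inr o) y = ((P o).card : ℝ) := by
      rw [hwinr]; simp
    have hr1 : (1 : ℝ) ≤ r o := by exact_mod_cast h4 o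
    have hP : ((P o).card : ℝ) ≤ D * r o := by exact_mod_cast h5 o
    have hP2 : (D : ℝ) * r o ≤ D * (r o : ℝ) ^ 2 := by
      apply mul_le_mul_of_nonneg_left _ hDR.le
      nlinarith
    have e1 := hcell (Sum.inr o) (b m) (b (m + 1)) (r o) (hblt _ hm).le
      (hbK _ hm) (by linarith) (by rw [hW]; linarith)
    rw [hwinr, hW] at e1
    have e2 : (((P o).filter (fun z => π z.1 = m)).card : ℝ) ≤
        (((P o).filter (fun z => z.1 ∈ univ.filter
          (fun y => b m ≤ (c y : ℕ) ∧ (c y : ℕ) < b (m + 1)))).card : ℝ) := by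
      refine Nat.cast_le.2 (Finset.card_le_card ?_)
      intro z hz
      have hz1 := Finset.mem_filter.1 hz
      refine Finset.mem_filter.2 ⟨hz1.1, Finset.mem_filter.2 ⟨Finset.mem_univ _, ?_, ?_⟩⟩
      · rw [← hz1.2]; exact hπ1 z.1
      · rw [← hz1.2]; exact hπ2 z.1
    have e3 : (0 : ℝ) ≤ ((b (m + 1) : ℝ) - b m) / K := by
      have : (b m : ℝ) ≤ b (m + 1) := by exact_mod_cast (hblt _ hm).le
      exact div_nonneg (by linarith) hKR.le
    have e4 := mul_le_mul_of_nonneg_left hP e3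
    have e5 := mul_le_mul_of_nonneg_right (hlenmx m hm)
      (by positivity : (0 : ℝ) ≤ (D : ℝ) * r o)
    have e6 : (((P o).filter (fun z => π z.1 = m)).card : ℝ) ≤ (mx m * D / 128 + E) * r o := by
      have : mx m / 128 * ((D : ℝ) * r o) = mx m * D / 128 * r o := by ring
      nlinarith
    have e7 : 12 * (mx m * D / 128 + E) ≤ s m := by
      have := hs2 m
      have := hmxD m
      linarith
    have e8 := mul_le_mul_of_nonneg_right e7 (by linarith : (0 : ℝ) ≤ r o)
    have : (12 : ℝ) * ((P o).filter (fun z => π z.1 = m)).card ≤ s m * r o := by linarith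
    exact_mod_cast this
  · intro x
    refine le_trans (h9 x) ?_
    have e1 := hs2 (π x)
    have e2 := hmxD (π x)
    have e3 : (D : ℝ) / 2 ^ (g + 6) = γ * D / 64 := by
      rw [hγ, pow_add]
      have : (0 : ℝ) < 2 ^ g := by positivity
      field_simp
      norm_num
    rw [e3]
    linarith

end Pool.Agent.K1H34.HYC
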